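import Pool.Agent.J6H84.DG.All
import Pool.Agent.J6H84.TS.Fin

/-!
# Automorphism groups of large variational sets of arbitrary order

`IsArray m n k C`: any `m` of the `k` functions `C i` from the `n ^ m` cells to the `n` symbols (with distinct
indices) form a variational cube; every variational set has this property.  `Aut C 1 σ`: the
permutation `σ` of the cells fixes every cube up to the names of the symbols.

Proof.  Let `k > n / 2 + m - 1` and `k > m`.
* If `σ` has at least two fixed cells, then all cubes have the same number `f ≥ 2` of fixed symbols, and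
  the fixed cells with these symbols form a family of the same kind of order `f`.  So `k ≤ f + m - 1`.  If
  `f < n`, then `f ≤ n / 2` (as for subsquares of latin squares), a contradiction.  So `f = n`, `σ = 1`.
* So the stabilizer of a cell acts freely on the `n - 1` other symbols of a cube.  Let `S` be a Sylow
  `l`-subgroup.  If `l` divides `n` then `S` acts freely on the cells; otherwise it fixes a cell.
* For prime order and `k ≥ p + 2` the order is not divisible by `p ^ (m - 1)` (`TransitiveSets`).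
* The linear sets have the automorphisms `x ↦ c x + v`.

Modules by helpers 46, 22, 3, 61.
-/

set_option autoImplicit false

namespace Pool.Agent.Results.MP_c7a479_co.AutomorphismOrder

open Pool.Agent.H430R2.PermCubes Pool.Agent.J6H84.TS Pool.Agent.J6H84.DG

theorem order_dvd {m n k : ℕ} {C : Fin k → (Fin m → Fin n) → Fin n} (hm : 2 ≤ m) (hn : 2 ≤ n)
    (hmk : m + 1 ≤ k) (hk : n + 2 * m < 2 * k + 2) (hC : IsArray m n k C)
    (G : Subgroup (Equiv.Perm (Fin m → Fin n))) (hG : ∀ σ ∈ G, Aut C 1 σ) :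
    Nat.card G ∣ n ^ m * (n - 1) := by
  classical
  have h1 := two m n k C hm hn hmk hk hC
  refine syl (Fin m → Fin n) n m hn (by omega) (by simp) G fun P x hP hx => ?_
  exact stab m n k C (by omega) hn hmk hC h1 P x fun σ hσ => ⟨hG σ (hP hσ), hx σ hσ⟩

theorem prime_order {p m k : ℕ} {C : Fin k → (Fin m → Fin p) → Fin p} (hp : p.Prime) (hp2 : p ≠ 2)
    (hm : 3 ≤ m) (hmp : m ≤ p) (hk : p + 2 ≤ k) (hC : IsArray m p k C)
    (G : Subgroup (Equiv.Perm (Fin m → Fin p))) (hG : ∀ σ ∈ G, Aut C 1 σ)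
    (hkm : m + 1 ≤ k) (hk2 : p + 2 * m < 2 * k + 2) :
    Nat.card G ∣ p ^ (m - 2) * (p - 1) := by
  have : Fact p.Prime := ⟨hp⟩
  have h1 := order_dvd (by omega) hp.two_le hkm hk2 hC G hG
  have h2 : ¬ p ^ (m - 1) ∣ Nat.card G := by
    intro hd
    obtain ⟨K, hK, hK'⟩ := sub p (m - 1) (Equiv.Perm (Fin m → Fin p)) G hd
    have := card_le hp2 hm hmp (by omega) hC K hK' (fun σ hσ => hG σ (hK hσ))
    omega
  have h0 : Nat.card G ≠ 0 := Nat.card_pos.ne'
  obtain ⟨e, r, hr, he⟩ := Nat.exists_eq_pow_mul_and_not_dvd h0 p hp.ne_one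
  rw [he] at h1 h2 ⊢
  have he2 : e ≤ m - 2 := by
    by_contra hcon
    push Not at hcon
    exact h2 (Dvd.dvd.mul_right (pow_dvd_pow p (by omega)) r)
  have hr2 : r ∣ p - 1 := by
    have h3 : r ∣ p ^ m * (p - 1) := (Dvd.intro_left _ rfl).trans h1
    have h4 : Nat.Coprime r (p ^ m) :=
      Nat.Coprime.pow_right m ((Nat.Prime.coprime_iff_not_dvd hp).2 hr).symm
    exact h4.dvd_of_dvd_mul_left h3
  exact Nat.mul_dvd_mul (pow_dvd_pow p he2) hr2

/-- (1) Let `m, n ≥ 2`, `k > n / 2 + m - 1`, `k > m`, and let any `m` of the `k` cubes of order `n` form a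
variational cube.  Then an automorphism fixing every cube that has two fixed cells is the identity, and
the order of a group of such automorphisms divides `n ^ m (n - 1)`.
(2) If moreover `n = p` is an odd prime, `3 ≤ m ≤ p` and `k ≥ p + 2`, then it divides
`p ^ (m - 2) (p - 1)`.
(3) For every prime power `q` and `m ≥ 2` there is a variational set of `val m q` cubes (`q + 1` or more for
`3 ≤ m < q`) with a group of order `q ^ m (q - 1)`. -/
theorem result :
    (∀ (m n k : ℕ) (C : Fin k → (Fin m → Fin n) → Fin n), 2 ≤ m → 2 ≤ n → m + 1 ≤ k →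
      n + 2 * m < 2 * k + 2 → IsArray m n k C →
      (∀ σ : Equiv.Perm (Fin m → Fin n), Aut C 1 σ →
        ∀ x y, σ x = x → σ y = y → x ≠ y → σ = 1) ∧
      ∀ G : Subgroup (Equiv.Perm (Fin m → Fin n)), (∀ σ ∈ G, Aut C 1 σ) →
        Nat.card G ∣ n ^ m * (n - 1)) ∧
    (∀ (p m k : ℕ) (C : Fin k → (Fin m → Fin p) → Fin p), p.Prime → p ≠ 2 → 3 ≤ m → m ≤ p →
      p + 2 ≤ k → p + 2 * m < 2 * k + 2 → IsArray m p k C →
      ∀ G : Subgroup (Equiv.Perm (Fin m → Fin p)), (∀ σ ∈ G, Aut C 1 σ) →
        Nat.card G ∣ p ^ (m - 2) * (p - 1)) ∧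
    (∀ q m : ℕ, IsPrimePow q → 2 ≤ m →
      ∃ C : Fin (val m q) → (Fin m → Fin q) → Fin q, IsVariationalSet m q (val m q) C ∧
        ∃ P : Subgroup (Equiv.Perm (Fin m → Fin q)), (∀ σ ∈ P, Aut C 1 σ) ∧
          Nat.card P = q ^ m * (q - 1)) := by
  refine ⟨?_, ?_, ?_⟩
  · intro m n k C hm hn hmk hk hC
    exact ⟨two m n k C hm hn hmk hk hC, fun G hG => order_dvd hm hn hmk hk hC G hG⟩
  · intro p m k C hp hp2 hm hmp hk hk2 hC G hG
    exact prime_order hp hp2 hm hmp hk hC G hG (by omega) hk2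
  · intro q m hq hm
    obtain ⟨F⟩ := Fintype.nonempty_field_iff.2 (show IsPrimePow (Fintype.card (Fin q)) by
      rwa [Fintype.card_fin])
    exact @exG (Fin q) F _ m q (Fintype.card_fin q) hm

end Pool.Agent.Results.MP_c7a479_co.AutomorphismOrder
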