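import Pool.Agent.J6H84.LM.Fin

/-!
# Variational sets with many linear members

`IsArray m q k C`: the functions `C 0, ..., C (k - 1)` on the `q ^ m` cells, with `q` values, are such that any
`m` of them form a variational cube (a variational set, without the condition on the lines; every
variational set has this property).

Let `K` be a field with `q` elements and `φ` a bijection from the cells to `K ^ m` (coordinates of the cells,
arbitrary).  `LinIn φ D`: the cube `D` depends only on the value of a linear form in the coordinates `φ`, that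
is, `D` is a linear form in the coordinates up to the names of the symbols.

Proof of (1).
* Plane case: let `U` be a set of `q` points of `K ^ 2` on which `N` pairwise non-proportional linear forms are
  injective.  If `q = p` is prime and `N ≥ (p + 1) / 2` then `U` is a line (Rédei, Lovász and Schrijver:
  the power sums of degree at most `(p - 1) / 2` of all linear forms on `U` vanish).  If
  `(q - N) ^ 2 < q` then `U` is a line (counting as in Bruen's bound for blocking sets).
* Choose `m` of the `r` linear members as coordinates.  Let `D` be another member.  In a plane parallel to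
  a coordinate plane, `m - 2` of the linear members are constant and the other `r - m + 2` together with `D`
  have the plane property, so the level sets of `D` in the plane are parallel lines.
* A function on `K ^ m` that is injective in every variable and has parallel lines as level sets in the
  planes through the first coordinate direction has parallel hyperplanes as level sets: after naming
  the symbols it is affine in every variable with slopes that never vanish, so the slopes are constant.

(2) uses the bound for linear sets of the start file `LinearSetsOverRings` (in particular Ball's theorem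
if `q` is prime).  (3) `D y = y₀'` or `y_{m-1}`, according as `y₀' - y_{m-1}` is a square or not, `y₀' = ± y₀`, together
with the forms `∑ t ^ j y_j`, `t` a nonzero square.

Modules by helpers 24, 3, 68, 92, 10, 31, 34.
-/

set_option autoImplicit false

namespace Pool.Agent.Results.MP_c7a479_co.ManyLinearMembers

open Pool.Agent.H430R2.PermCubes Pool.Agent.J6H84.LM

/-- the number of the members of the family that are linear in the coordinates `φ` -/
noncomputable def linCount {K : Type} [Field K] {m n k : ℕ} (φ : (Fin m → Fin n) ≃ (Fin m → K))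
    (C : Fin k → (Fin m → Fin n) → Fin n) : ℕ :=
  Nat.card {i : Fin k // LinIn φ (C i)}

/-- the condition on the number `r` of linear members: `r ≥ m`, and `N = r - m + 2` satisfies
`N ≥ (q + 1) / 2` if `q` is a prime, or `N > q - √q` -/
def Many (q m r : ℕ) : Prop :=
  m ≤ r ∧ ((q.Prime ∧ q + 1 ≤ 2 * (r + 2 - m)) ∨ (q - (r + 2 - m)) ^ 2 < q)

theorem main {K : Type} [Field K] [Fintype K] {q m k : ℕ} (hq : Fintype.card K = q) (hm : 2 ≤ m)
    {C : Fin k → (Fin m → Fin q) → Fin q} (hC : IsArray m q k C)
    (φ : (Fin m → Fin q) ≃ (Fin m → K)) (h : Many q m (linCount φ C)) :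
    (∀ i, LinIn φ (C i)) ∧
      (3 ≤ m → m ≤ q → q % 2 = 1 → Pool.Agent.Y347.VL.InRange q.minFac q m → k ≤ q + 1) := by
  classical
  subst hq
  have hcard : linCount φ C = (Finset.univ.filter fun i => LinIn φ (C i)).card := by
    rw [linCount, Nat.card_eq_fintype_card, Fintype.card_subtype]
  rw [hcard] at h
  have h1 : ∀ i, LinIn φ (C i) := all_linear hm hC φ _
    (fun i hi => (Finset.mem_filter.1 hi).2) h.1 h.2
  exact ⟨h1, fun hm3 hmq hodd hr => card_le hm3 hmq hodd hr hC φ h1⟩

theorem example_sharp {p m : ℕ} (hp : p.Prime) (hp2 : p ≠ 2) (hm : 2 ≤ m) :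
    ∃ (φ : (Fin m → Fin p) ≃ (Fin m → ZMod p)) (C : Fin ((p + 1) / 2) → (Fin m → Fin p) → Fin p)
      (_ : Fact p.Prime), IsArray m p ((p + 1) / 2) C ∧ (p - 1) / 2 ≤ linCount φ C ∧
        ∃ i, ¬ LinIn φ (C i) := by
  classical
  have : Fact p.Prime := ⟨hp⟩
  have : NeZero p := ⟨hp.ne_zero⟩
  obtain ⟨D, hD, hD'⟩ := sharp p hp2 m hm
  have hodd : p % 2 = 1 := by
    rcases hp.eq_two_or_odd with h | h
    · exact absurd h hp2
    · exact h
  have hcard : Nat.card (Option (Sq p)) = (p + 1) / 2 := by
    rw [Finite.card_option, sq p hp2]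
    omega
  let s : Fin ((p + 1) / 2) ≃ Option (Sq p) :=
    (Fintype.equivFinOfCardEq (by rw [← Nat.card_eq_fintype_card, hcard])).symm
  let u : Fin p ≃ ZMod p := (ZMod.finEquiv p).toEquiv
  let φ : (Fin m → Fin p) ≃ (Fin m → ZMod p) := Equiv.arrowCongr (Equiv.refl _) u
  let V : Option (Sq p) → (Fin m → ZMod p) → ZMod p := fun o y =>
    o.elim (D y) (fun t => ∑ j : Fin m, t.1 ^ (j : ℕ) * y j)
  let C : Fin ((p + 1) / 2) → (Fin m → Fin p) → Fin p := fun i x => u.symm (V (s i) (φ x))
  have hlin : ∀ i, s i ≠ none → LinIn φ (C i) := by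
    intro i hi
    obtain ⟨t, ht⟩ := Option.ne_none_iff_exists'.1 hi
    refine ⟨fun j => t.1 ^ (j : ℕ), fun x y hxy => ?_⟩
    change u.symm (V (s i) (φ x)) = u.symm (V (s i) (φ y))
    rw [ht]
    exact congrArg u.symm hxy
  refine ⟨φ, C, inferInstance, ?_, ?_, s.symm none, ?_⟩
  · intro e he
    have h1 := hD (fun i => s (e i)) (s.injective.comp he)
    have h2 : (fun (x : Fin m → Fin p) (i : Fin m) => C (e i) x) =
        (Equiv.arrowCongr (Equiv.refl (Fin m)) u.symm) ∘
          (fun (y : Fin m → ZMod p) (i : Fin m) => V (s (e i)) y) ∘ φ := by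
      funext x i
      rfl
    rw [h2]
    exact (Equiv.bijective _).comp (h1.comp φ.bijective)
  · have h1 : (p - 1) / 2 = Nat.card (Sq p) := (sq p hp2).symm
    rw [h1, linCount]
    refine Nat.card_le_card_of_injective
      (fun t : Sq p => (⟨s.symm (some t), hlin _ (by simp)⟩ : {i // LinIn φ (C i)})) ?_
    intro t t' h
    have h2 : s.symm (some t) = s.symm (some t') := congrArg Subtype.val h
    exact Option.some_injective _ (s.symm.injective h2)
  · rintro ⟨a, ha⟩
    refine hD' ⟨a, fun y y' hy => ?_⟩
    have h1 := ha (φ.symm y) (φ.symm y') (by simp only [Equiv.apply_symm_apply]; exact hy)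
    have h2 : ∀ y, C (s.symm none) (φ.symm y) = u.symm (D y) := by
      intro y
      change u.symm (V (s (s.symm none)) (φ (φ.symm y))) = _
      rw [Equiv.apply_symm_apply, Equiv.apply_symm_apply]
      rfl
    rw [h2, h2] at h1
    exact u.symm.injective h1

/-- (1) Let `K` be a field with `q` elements, `m ≥ 2`, and `C` a family of `k` cubes any `m` of which form a
variational cube.  If in some coordinates `φ` of the cells the number `r` of linear members satisfies
`Many q m r`, then all members are linear in these coordinates; and `k ≤ q + 1` if `q` is odd, `3 ≤ m ≤ q` and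
`InRange` (in particular for every prime `q`).
(2) So for `p` an odd prime and `3 ≤ m ≤ p`: if `k ≥ p + 2`, then in all coordinates the number `r` of linear
members satisfies `2 r ≤ p + 2 m - 4`.
(3) For all odd primes `p` and `m ≥ 2` there are `(p + 1) / 2` such cubes, `(p - 1) / 2` of them linear in
the same coordinates and one not. -/
theorem result :
    (∀ (K : Type) [Field K] [Fintype K] (q m k : ℕ), Fintype.card K = q → 2 ≤ m →
      ∀ C : Fin k → (Fin m → Fin q) → Fin q, IsArray m q k C →
        ∀ φ : (Fin m → Fin q) ≃ (Fin m → K), Many q m (linCount φ C) →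
          (∀ i, LinIn φ (C i)) ∧
          (3 ≤ m → m ≤ q → q % 2 = 1 → Pool.Agent.Y347.VL.InRange q.minFac q m → k ≤ q + 1)) ∧
    (∀ (p m k : ℕ) (_ : Fact p.Prime), p ≠ 2 → 3 ≤ m → m ≤ p →
      ∀ C : Fin k → (Fin m → Fin p) → Fin p, IsArray m p k C → p + 2 ≤ k →
        ∀ φ : (Fin m → Fin p) ≃ (Fin m → ZMod p), 2 * linCount φ C + 4 ≤ p + 2 * m) ∧
    (∀ p m : ℕ, p.Prime → p ≠ 2 → 2 ≤ m →
      ∃ (φ : (Fin m → Fin p) ≃ (Fin m → ZMod p)) (C : Fin ((p + 1) / 2) → (Fin m → Fin p) → Fin p)
        (_ : Fact p.Prime), IsArray m p ((p + 1) / 2) C ∧ (p - 1) / 2 ≤ linCount φ C ∧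
          ∃ i, ¬ LinIn φ (C i)) := by
  refine ⟨?_, ?_, fun p m hp hp2 hm => example_sharp hp hp2 hm⟩
  · intro K _ _ q m k hq hm C hC φ h
    exact main hq hm hC φ h
  · intro p m k hp hp2 hm hmp C hC hk φ
    by_contra hcon
    push Not at hcon
    have hpp := hp.out
    have hp3 : 3 ≤ p := by have := hpp.two_le; omega
    have hodd : p % 2 = 1 := by
      rcases hpp.eq_two_or_odd with h | h
      · exact absurd h hp2
      · exact h
    have h1 := (main (K := ZMod p) (ZMod.card p) (by omega) hC φ
      ⟨by omega, Or.inl ⟨hpp, by omega⟩⟩).2 hm hmp hodd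
      (by rw [hpp.minFac_eq]; exact Pool.Agent.Y347.VL.inRange_prime hp3)
    omega

end Pool.Agent.Results.MP_c7a479_co.ManyLinearMembers
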