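import Pool.Agent.J6H84.RG.All
import Pool.Agent.J6H84.DG.All
import Pool.Agent.J6H84.TS.Fin

/-!
# Variational sets of arbitrary order with a cell-transitive group that fixes every cube

`IsArray m n k C`: any `m` of the `k` functions `C i` from the `n ^ m` cells to the `n` symbols (with distinct
indices) form a variational cube; every variational set has this property.  `Aut C 1 σ`: the
permutation `σ` of the cells fixes every cube up to the names of the symbols.

Proof.  Let `G` be a group of automorphisms fixing every cube, transitive on the cells, in which elements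
of order `p` have no fixed cell.  A Sylow `p`-subgroup `P` has order `p ^ (a m)`, `p ^ a` the power of `p` in `n`.  It
acts on the symbols of each cube and has an orbit `O i` of length at most `p ^ a` there.  The stabilizers in
`P` of symbols `s i` in `O i` for `m` cubes `i` intersect trivially, because the cell with these symbols is
not fixed by an element `≠ 1` of `P`.  Counting shows that `|O i| = p ^ a` and that the maps
`P → O i`, `g ↦ g (s i)`, are `k` cubes of order `p ^ a` any `m` of which form a variational cube, with the regular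
group `P`.  For `a = 1` use `TransitiveSets`.  If `k > n / 2 + m - 1` then cell stabilizers have order dividing
`n - 1` (`AutomorphismOrder`).

Modules by helpers 61, 22 (and those of TransitiveSets and AutomorphismOrder).
-/

set_option autoImplicit false

namespace Pool.Agent.Results.MP_c7a479_co.SylowReduction

open Pool.Agent.H430R2.PermCubes Pool.Agent.J6H84.TS Pool.Agent.J6H84.DG Pool.Agent.J6H84.RG

/-- the group `G` of cell permutations fixes every cube and is transitive on the cells -/
def Acts {m n k : ℕ} (C : Fin k → (Fin m → Fin n) → Fin n)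
    (G : Subgroup (Equiv.Perm (Fin m → Fin n))) : Prop :=
  (∀ σ ∈ G, Aut C 1 σ) ∧ ∀ x y, ∃ σ ∈ G, σ x = y

/-- elements of order `p` of `G` have no fixed cell -/
def Free {m n : ℕ} (p : ℕ) (G : Subgroup (Equiv.Perm (Fin m → Fin n))) : Prop :=
  ∀ σ ∈ G, ∀ x, σ x = x → σ ^ p = 1 → σ = 1

/-- a transitive group of order `n ^ m` is regular -/
theorem free_of_card {m n p : ℕ} {k : ℕ} {C : Fin k → (Fin m → Fin n) → Fin n}
    {G : Subgroup (Equiv.Perm (Fin m → Fin n))} (hG : Acts C G) (hc : Nat.card G = n ^ m) :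
    Free p G := by
  classical
  intro σ hσ x hx _
  -- the orbit map is surjective between finite sets of the same size, so injective
  let f : G → (Fin m → Fin n) := fun g => g.1 x
  have hsurj : Function.Surjective f := fun y => by
    obtain ⟨g, hg, h⟩ := hG.2 x y
    exact ⟨⟨g, hg⟩, h⟩
  have hcard : Nat.card G = Nat.card (Fin m → Fin n) := by
    rw [hc, Nat.card_eq_fintype_card]
    simp
  have hbij := (Nat.bijective_iff_surjective_and_card f).2 ⟨hsurj, hcard⟩
  have h1 : (⟨σ, hσ⟩ : G) = 1 := hbij.1 (show σ x = (1 : Equiv.Perm (Fin m → Fin n)) x by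
    rw [hx]; rfl)
  exact congrArg Subtype.val h1

theorem aux {m k q p : ℕ} (h : q = p) (hp : p.Prime) (hp2 : p ≠ 2) (hm : 3 ≤ m) (hmp : m ≤ p)
    {C : Fin k → (Fin m → Fin q) → Fin q} (hC : IsArray m q k C)
    (Q : Subgroup (Equiv.Perm (Fin m → Fin q))) (hQ : ∀ σ ∈ Q, Aut C 1 σ)
    (hQc : Nat.card Q = q ^ m) : k ≤ p + 1 := by
  subst h
  have : Fact q.Prime := ⟨hp⟩
  exact card_le_full hp2 hm hmp hC Q hQc fun σ hσ => ⟨1, hQ σ hσ⟩

theorem bounds {m n k p : ℕ} (hp : p.Prime) (hm : 2 ≤ m) (hmk : m ≤ k) (hn : 2 ≤ n) (hpn : p ∣ n)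
    {C : Fin k → (Fin m → Fin n) → Fin n} (hC : IsArray m n k C)
    {G : Subgroup (Equiv.Perm (Fin m → Fin n))} (hG : Acts C G) (hF : Free p G) :
    k ≤ p ^ n.factorization p + m - 1 ∧
      (p ≠ 2 → 3 ≤ m → k ≤ p ^ n.factorization p + m - 2) ∧
      (p ^ n.factorization p ≤ m → k ≤ m + 1) ∧
      (p ≠ 2 → 3 ≤ m → m ≤ p → ¬ p ^ 2 ∣ n → k ≤ p + 1) := by
  have : Fact p.Prime := ⟨hp⟩
  obtain ⟨C', hC', Q, hQ, hQc⟩ := red m n k p C (by omega) hmk hn hC G hG.1 hG.2 hF
  have ha : 1 ≤ n.factorization p := (hp.dvd_iff_one_le_factorization (by omega)).1 hpn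
  have hq2 : 2 ≤ p ^ n.factorization p :=
    hp.two_le.trans (Nat.le_self_pow (by omega) p)
  refine ⟨hC'.le_general hm hq2, fun hp2 hm3 => hC'.le_odd hm3 hq2 ?_, fun hqm =>
    hC'.le_add_one hq2 hqm, fun hp2 hm3 hmp hsq => ?_⟩
  · rw [← Nat.odd_iff]
    exact (hp.odd_of_ne_two hp2).pow
  · have ha1 : n.factorization p = 1 := by
      have h2 : ¬ 2 ≤ n.factorization p := fun h =>
        hsq ((hp.pow_dvd_iff_le_factorization (by omega)).2 h)
      omega
    exact aux (by rw [ha1, pow_one]) hp hp2 hm3 hmp hC' Q hQ hQc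

theorem primePow {m n k : ℕ} (hm : 2 ≤ m) (hn : 2 ≤ n) (hmk : m + 1 ≤ k)
    (hk : n + 2 * m < 2 * k + 2) {C : Fin k → (Fin m → Fin n) → Fin n} (hC : IsArray m n k C)
    {G : Subgroup (Equiv.Perm (Fin m → Fin n))} (hG : Acts C G) : IsPrimePow n := by
  classical
  have hp : n.minFac.Prime := Nat.minFac_prime (by omega)
  have hpn : n.minFac ∣ n := Nat.minFac_dvd n
  have : Fact n.minFac.Prime := ⟨hp⟩
  have h1 := two m n k C hm hn hmk hk hC
  have hF : Free n.minFac G := by
    intro σ hσ x hx hpow
    by_contra hne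
    have h2 : orderOf σ = n.minFac := orderOf_eq_prime hpow hne
    have h3 := stab m n k C (by omega) hn hmk hC h1 (Subgroup.zpowers σ) x (by
      intro τ hτ
      refine ⟨hG.1 τ ((Subgroup.zpowers_le.2 hσ) hτ), ?_⟩
      have h4 : Subgroup.zpowers σ ≤ MulAction.stabilizer (Equiv.Perm (Fin m → Fin n)) x :=
        Subgroup.zpowers_le.2 (by rw [MulAction.mem_stabilizer_iff]; exact hx)
      exact MulAction.mem_stabilizer_iff.1 (h4 hτ))
    rw [Nat.card_zpowers, h2] at h3
    have h5 : n.minFac ∣ 1 := by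
      have h6 := (Nat.dvd_sub hpn h3)
      rwa [show n - (n - 1) = 1 by omega] at h6
    exact hp.one_lt.ne' (Nat.dvd_one.1 h5)
  have hb := (bounds hp hm (by omega) hn hpn hC hG hF).1
  have hd : n.minFac ^ n.factorization n.minFac ∣ n := Nat.ordProj_dvd n n.minFac
  obtain ⟨r, hr⟩ := hd
  have hq : 0 < n.minFac ^ n.factorization n.minFac := pow_pos hp.pos _
  have hr1 : r = 1 := by
    by_contra hne
    have hr0 : r ≠ 0 := by
      rintro rfl
      omega
    have h7 : n.minFac ^ n.factorization n.minFac * 2 ≤ n := by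
      calc n.minFac ^ n.factorization n.minFac * 2
          ≤ n.minFac ^ n.factorization n.minFac * r := Nat.mul_le_mul_left _ (by omega)
        _ = n := hr.symm
    omega
  rw [hr1, mul_one] at hr
  rw [hr]
  exact hp.isPrimePow.pow (by
    have := (hp.dvd_iff_one_le_factorization (by omega : n ≠ 0)).1 hpn
    omega)

/-- Let any `m` of the `k ≥ m` cubes `C i` of order `n ≥ 2` form a variational cube and let `G` be a
group of automorphisms fixing every cube, transitive on the cells.
(1) For every prime `p` such that elements of order `p` of `G` have no fixed cell (for example if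
`|G| = n ^ m`), with `q = p ^ a` the power of `p` in `n`, there are `k` cubes of order `q` any `m` of which
form a variational cube, with a group of automorphisms fixing every cube of order `q ^ m`.
(2) If moreover `p` divides `n` and `m ≥ 2`, then `k ≤ q + m - 1`; `k ≤ q + m - 2` if `p` is odd and `m ≥ 3`;
`k ≤ m + 1` if `q ≤ m`; `k ≤ p + 1` if `p` is odd, `3 ≤ m ≤ p` and `p ^ 2` does not divide `n`.
(3) If `m ≥ 2`, `k > m` and `k > n / 2 + m - 1`, then `n` is a prime power.
(4) If the least prime factor `p` of `n` satisfies `3 ≤ m < p` and `p ^ 2` does not divide `n`, then the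
largest size of a variational set of `m`-dimensional permutation cubes of order `n` with a group of
order `n ^ m` that is transitive on the cells and fixes every cube is `p + 1`. -/
theorem result :
    (∀ (m n k p : ℕ) (C : Fin k → (Fin m → Fin n) → Fin n), p.Prime → 1 ≤ m → m ≤ k → 2 ≤ n →
      IsArray m n k C → ∀ G : Subgroup (Equiv.Perm (Fin m → Fin n)), Acts C G →
      Free p G ∨ Nat.card G = n ^ m →
        (∃ C' : Fin k → (Fin m → Fin (p ^ n.factorization p)) → Fin (p ^ n.factorization p),
          IsArray m (p ^ n.factorization p) k C' ∧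
          ∃ Q : Subgroup (Equiv.Perm (Fin m → Fin (p ^ n.factorization p))),
            (∀ σ ∈ Q, Aut C' 1 σ) ∧ Nat.card Q = (p ^ n.factorization p) ^ m) ∧
        (p ∣ n → 2 ≤ m → k ≤ p ^ n.factorization p + m - 1 ∧
          (p ≠ 2 → 3 ≤ m → k ≤ p ^ n.factorization p + m - 2) ∧
          (p ^ n.factorization p ≤ m → k ≤ m + 1) ∧
          (p ≠ 2 → 3 ≤ m → m ≤ p → ¬ p ^ 2 ∣ n → k ≤ p + 1))) ∧
    (∀ (m n k : ℕ) (C : Fin k → (Fin m → Fin n) → Fin n), 2 ≤ m → 2 ≤ n → m + 1 ≤ k →
      n + 2 * m < 2 * k + 2 → IsArray m n k C →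
      ∀ G : Subgroup (Equiv.Perm (Fin m → Fin n)), Acts C G → IsPrimePow n) ∧
    (∀ m n : ℕ, 3 ≤ m → m < n.minFac → ¬ n.minFac ^ 2 ∣ n →
      IsGreatest {k : ℕ | ∃ C : Fin k → (Fin m → Fin n) → Fin n, IsVariationalSet m n k C ∧
        ∃ G : Subgroup (Equiv.Perm (Fin m → Fin n)), Acts C G ∧ Nat.card G = n ^ m}
        (n.minFac + 1)) := by
  refine ⟨?_, ?_, ?_⟩
  · intro m n k p C hp hm hmk hn hC G hG hF'
    have : Fact p.Prime := ⟨hp⟩
    have hF : Free p G := hF'.elim id fun h => free_of_card hG h
    exact ⟨red m n k p C hm hmk hn hC G hG.1 hG.2 hF, fun hpn hm2 =>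
      bounds hp hm2 hmk hn hpn hC hG hF⟩
  · intro m n k C hm hn hmk hk hC G hG
    exact primePow hm hn hmk hk hC hG
  · intro m n hm hmn hsq
    have hn : 2 ≤ n := by
      by_contra hcon
      have h0 : n = 0 ∨ n = 1 := by omega
      rcases h0 with h0 | h0
      · subst h0
        rw [Nat.minFac_zero] at hmn
        omega
      · subst h0
        rw [Nat.minFac_one] at hmn
        omega
    have hp : n.minFac.Prime := Nat.minFac_prime (by omega)
    constructor
    · obtain ⟨C, hC, G, hG, hG2, hGc⟩ := exN m n hm hmn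
      exact ⟨C, hC, G, ⟨hG, hG2⟩, hGc⟩
    · rintro k ⟨C, hC, G, hG, hGc⟩
      rcases Nat.lt_or_ge k m with h | hmk
      · omega
      · exact (bounds hp (by omega) hmk hn (Nat.minFac_dvd n) hC.2 hG
          (free_of_card hG hGc)).2.2.2 (by omega) hm hmn.le hsq

end Pool.Agent.Results.MP_c7a479_co.SylowReduction
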