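import Pool.Agent.J6H84.TS.Fin

/-!
# Transitive variational sets of prime order

`Aut C π σ`: the permutation `σ` of the cells is an automorphism of the family `C` of cubes which maps the
cube `i` to the cube `π i`, up to the names of the symbols.

`IsArray m p k C`: any `m` of the `k` functions `C i` (with distinct indices) form a variational cube; every
variational set has this property.

Proof.  Let `p` be an odd prime, `3 ≤ m ≤ p`.
* Let `P` be a `p`-group of automorphisms fixing every cube.  It acts on the symbols of every cube by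
  rotations, so it is elementary abelian, acts semiregularly on the cells, and its elements give a linear
  code `L` of length `k` over `F_p` with `|L| = |P|` in which a nonzero word has less than `m` zeros.
* If `|P| = p ^ m`, then the cubes are linear.  If `|P| = p ^ (m - 1)`, then for two cells `x₀`, `x₁` in
  different orbits of `P` the differences of the symbols are a word `δ`, and `L + F_p δ` is an MDS code of
  dimension `m`: a word `c δ + l` with `m` zeros would give an element of `P` which maps `x₁` to `x₀`.  So
  `k ≤ p + 1` by Ball's theorem (start file `LinearSetsOverRings`).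
* Since `k ≤ p + m - 1 < 2 p`, the order of the symmetric group of the cubes is not divisible by `p ^ 2`.  So a
  group of order `p ^ m` that permutes the cubes has a subgroup of order `p ^ (m - 1)` that fixes every cube.
* The order of a transitive group is divisible by `p ^ m`.

Modules by helpers 3, 46, 68, 78, 85, 92, 24, 75.
-/

set_option autoImplicit false

namespace Pool.Agent.Results.MP_c7a479_co.TransitiveSets

open Pool.Agent.H430R2.PermCubes Pool.Agent.J6H84.LM Pool.Agent.J6H84.TS

/-- the automorphisms of the family (which may permute the cubes, up to the names of the symbols) are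
transitive on the cells -/
def IsTransitive {m n k : ℕ} (C : Fin k → (Fin m → Fin n) → Fin n) : Prop :=
  ∀ x y, ∃ (π : Equiv.Perm (Fin k)) (σ : Equiv.Perm (Fin m → Fin n)), Aut C π σ ∧ σ x = y

/-- (1) For every prime `p` and `3 ≤ m < p` the largest size of a transitive variational set of
`m`-dimensional permutation cubes of order `p` is `p + 1`.
(2) Let `p` be an odd prime, `3 ≤ m ≤ p`, and let any `m` of the `k ≥ p + 2` cubes `C i` form a variational
cube.  Then the order of a group of automorphisms is not divisible by `p ^ m`, and the order of a group of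
automorphisms that fix every cube is not divisible by `p ^ (m - 1)`.
(3) For every prime `p` and `k ≥ m ≥ 1`: if any `m` of the `k` cubes `C i` form a variational cube and a group
of automorphisms fixing every cube has order divisible by `p ^ m`, then all cubes are linear in
common coordinates of the cells. -/
theorem result :
    (∀ (p m : ℕ), p.Prime → 3 ≤ m → m < p →
      IsGreatest {k : ℕ | ∃ C : Fin k → (Fin m → Fin p) → Fin p,
        IsVariationalSet m p k C ∧ IsTransitive C} (p + 1)) ∧
    (∀ (p m k : ℕ), p.Prime → p ≠ 2 → 3 ≤ m → m ≤ p → p + 2 ≤ k →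
      ∀ C : Fin k → (Fin m → Fin p) → Fin p, IsArray m p k C →
        (∀ Q : Subgroup (Equiv.Perm (Fin m → Fin p)), (∀ σ ∈ Q, ∃ π, Aut C π σ) →
          ¬ p ^ m ∣ Nat.card Q) ∧
        (∀ P : Subgroup (Equiv.Perm (Fin m → Fin p)), (∀ σ ∈ P, Aut C 1 σ) →
          ¬ p ^ (m - 1) ∣ Nat.card P)) ∧
    (∀ (p m k : ℕ) (_ : Fact p.Prime), 1 ≤ m → m ≤ k →
      ∀ C : Fin k → (Fin m → Fin p) → Fin p, IsArray m p k C →
        ∀ P : Subgroup (Equiv.Perm (Fin m → Fin p)), (∀ σ ∈ P, Aut C 1 σ) → p ^ m ∣ Nat.card P →
          ∃ φ : (Fin m → Fin p) ≃ (Fin m → ZMod p), ∀ i, LinIn φ (C i)) := by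
  refine ⟨?_, ?_, ?_⟩
  · intro p m hp hm hmp
    have : Fact p.Prime := ⟨hp⟩
    have hp2 : p ≠ 2 := by omega
    constructor
    · obtain ⟨C, hC, h⟩ := ex p m hp2 hm hmp
      exact ⟨C, hC, fun x y => by
        obtain ⟨σ, h1, h2⟩ := h x y
        exact ⟨1, σ, h1, h2⟩⟩
    · rintro k ⟨C, hC, h⟩
      obtain ⟨Q, hQ, hQ'⟩ := orb p m k C h
      exact card_le_full hp2 hm hmp.le hC.2 Q hQ hQ'
  · intro p m k hp hp2 hm hmp hk C hC
    have : Fact p.Prime := ⟨hp⟩
    refine ⟨fun Q hQ hd => ?_, fun P hP hd => ?_⟩
    · obtain ⟨K, hK, hK'⟩ := sub p m (Equiv.Perm (Fin m → Fin p)) Q hd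
      have := card_le_full hp2 hm hmp hC K hK' (fun σ hσ => hQ σ (hK hσ))
      omega
    · obtain ⟨K, hK, hK'⟩ := sub p (m - 1) (Equiv.Perm (Fin m → Fin p)) P hd
      have := card_le hp2 hm hmp (by omega) hC K hK' (fun σ hσ => hP σ (hK hσ))
      omega
  · intro p m k hp hm hmk C hC P hP hd
    obtain ⟨K, hK, hK'⟩ := sub p m (Equiv.Perm (Fin m → Fin p)) P hd
    obtain ⟨u, χ, h⟩ := lab' rot p m k C hm hmk hC K (isPGroup hK') (fun σ hσ => hP σ (hK hσ))
    exact lin p m k C hmk hC K hK' u χ h

end Pool.Agent.Results.MP_c7a479_co.TransitiveSets
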